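import Pool.Agent.TH168.BN.Contain

/-!
# Brill-Noether loci of small degree: containments below the secant range

On a curve of genus `g > (d - 1) ^ 2` every `g^r_d` (`r ≥ 1`) fails to be very ample: otherwise two
of its pencils would generate the function field, and the genus would be at most `(d - 1) ^ 2`. So
`M^r_{g,d}` lies in `M^{r-1}_{g,d-2}`, and hence in `M^s_{g,d-2(r-s)}`. The degree `d - 2 (r - s)` is
smaller than `d - 2 r + 2 + s + ⌊(r - 1) / 2⌋` if `s < 2 + ⌊(r - 1) / 2⌋`. For `d = 2 r` the same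
holds for all `g ≥ 2 r + 1`, by Clifford's theorem.
-/

set_option autoImplicit false

open Pool.Agent.TH168.BN

namespace Pool.Agent.Results.MP_eed2ef_ag.LowDegree

/-- The hypotheses of Q1 for `g, r, s, d, e`. -/
structure Hypotheses (g r s : ℕ) (d e : ℤ) : Prop where
  d_le : d ≤ g - 1
  e_le : e ≤ g - 1
  le_s : 2 ≤ s
  s_lt : s + 1 ≤ r
  locus_d : IsLocus g r d
  locus_e : IsLocus g s e
  lt : e < d - 2 * r + 2 + s + ((r - 1) / 2 : ℕ)

/-- Let `s ≥ 2`, `r ≥ s + 1`, `s < 2 + ⌊(r - 1) / 2⌋` and `d ≥ 2 r`. For all `g > (d - 1) ^ 2`, and if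
`d = 2 r` for all `g ≥ 2 r + 1`, the numbers `g, r, s, d` and `e = d - 2 (r - s)` satisfy all
hypotheses of Q1, and `M^r_{g,d} ⊆ M^s_{g,e}`. -/
theorem result (r s d g : ℕ) (hs : 2 ≤ s) (hsr : s + 1 ≤ r) (hlt : s < 2 + (r - 1) / 2)
    (hd : 2 * r ≤ d) (hg : (d - 1) ^ 2 < g ∨ (d = 2 * r ∧ 2 * r + 1 ≤ g)) :
    Hypotheses g r s d (d - 2 * (r - s)) ∧ Contained g r d s (d - 2 * (r - s)) := by
  have h1 : d + 1 ≤ g := by
    rcases hg with h | h
    · obtain ⟨m, rfl⟩ : ∃ m, d = m + 1 := ⟨d - 1, by omega⟩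
      rw [Nat.add_sub_cancel] at h
      nlinarith
    · omega
  have h2 : (3 : ℤ) * d < 2 * g + 6 ∨ d = 2 * r := by
    rcases hg with h | h
    · left
      obtain ⟨m, rfl⟩ : ∃ m, d = m + 1 := ⟨d - 1, by omega⟩
      rw [Nat.add_sub_cancel] at h
      have h3 : (m : ℤ) ^ 2 < g := by exact_mod_cast h
      push_cast
      nlinarith [sq_nonneg ((m : ℤ) - 1)]
    · exact Or.inr h.1
  obtain ⟨e, he, hes⟩ : ∃ e : ℕ, (e : ℤ) = (d : ℤ) - 2 * (r - s) ∧ 2 * s ≤ e := by
    refine ⟨d - 2 * (r - s), ?_, ?_⟩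
    · rw [Nat.cast_sub (by omega)]
      push_cast
      rw [Nat.cast_sub (by omega)]
    · omega
  refine ⟨⟨by omega, by omega, hs, hsr, ⟨by omega, ?_, nonempty g r d (by omega) hd⟩,
    ⟨by omega, ?_, ?_⟩, by omega⟩, contained r s d g (by omega) (by omega) hd hg⟩
  · rcases h2 with h | h
    · exact rho_neg (by omega) (by omega) h
    · subst h
      push_cast
      exact rho_neg' (by omega) (by omega)
  · rcases h2 with h | h
    · exact rho_neg hs (by omega) (by omega)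
    · have e1 : (d : ℤ) - 2 * (r - s) = 2 * s := by omega
      rw [e1]
      exact rho_neg' (by omega) (by omega)
  · rw [← he]
    exact nonempty g s e (by omega) hes

end Pool.Agent.Results.MP_eed2ef_ag.LowDegree
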